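import Pool.Agent.Helper2.BI.St

/-! Project BI (MP_49e2dd_nt), module ST: structure of admissible pairs -/

set_option autoImplicit false

namespace Pool.Agent.Helper94.BI

open Pool.Agent.Helper2.BI
open Finset Filter
open N063b59cf

/-- at most half of the numbers up to `k` are prime -/
private theorem st_pi (k : ℕ) (hk : 8 ≤ k) : 2 * ((range (k + 1)).filter Nat.Prime).card ≤ k := by
  induction k using Nat.strong_induction_on with
  | _ k ih =>
    rcases Nat.lt_or_ge k 10 with h | h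
    · interval_cases k <;> decide
    · obtain ⟨j, rfl⟩ : ∃ j, k = j + 2 := ⟨k - 2, by omega⟩
      have h1 := ih j (by omega) (by omega)
      have h2 : ((range (j + 2 + 1)).filter Nat.Prime).card ≤
          ((range (j + 1)).filter Nat.Prime).card + 1 := by
        rw [Finset.range_add_one, Finset.range_add_one, Finset.filter_insert, Finset.filter_insert]
        by_cases hp : (j + 2).Prime
        · have hodd : ¬ (j + 1).Prime := by
            intro hq
            have h3 := hp.eq_two_or_odd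
            have h4 := hq.eq_two_or_odd
            omega
          rw [if_pos hp, if_neg hodd]
          exact Finset.card_insert_le _ _
        · rw [if_neg hp]
          split_ifs
          · exact Finset.card_insert_le _ _
          · omega
      omega

private theorem st_prod (v k : ℕ) (hk : k ≤ v) :
    ∏ m ∈ Icc (v + 1 - k) v, m = v.descFactorial k := by
  induction k with
  | zero => simp
  | succ k ih =>
    have h1 := ih (by omega)
    rw [Nat.descFactorial_succ, ← h1]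
    have h2 : Icc (v + 1 - (k + 1)) v = insert (v - k) (Icc (v + 1 - k) v) := by
      ext x
      simp only [Finset.mem_insert, Finset.mem_Icc]
      omega
    rw [h2, Finset.prod_insert]
    simp only [Finset.mem_Icc]
    omega

/-- upper bound for a binomial coefficient with small prime factors -/
private theorem st_choose (v k : ℕ) (hk : 8 ≤ k) (hv : k ≤ v)
    (h : ∀ q : ℕ, q.Prime → q ∣ v.choose k → q ≤ k) : (v.choose k) ^ 2 ≤ v ^ k := by
  have hc : v.choose k ≠ 0 := (Nat.choose_pos hv).ne'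
  have h1 : v.choose k ≤ v ^ ((range (k + 1)).filter Nat.Prime).card := by
    conv_lhs => rw [← Nat.prod_factorization_pow_eq_self hc]
    have hsub : (v.choose k).factorization.support ⊆ (range (k + 1)).filter Nat.Prime := by
      intro q hq
      rw [Nat.support_factorization, Nat.mem_primeFactors] at hq
      rw [Finset.mem_filter, Finset.mem_range]
      exact ⟨by have := h q hq.1 hq.2.1; omega, hq.1⟩
    calc (v.choose k).factorization.prod (fun x1 x2 => x1 ^ x2)
        = ∏ q ∈ (v.choose k).factorization.support, q ^ ((v.choose k).factorization q) := rfl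
      _ ≤ ∏ _q ∈ (v.choose k).factorization.support, v :=
          Finset.prod_le_prod' fun q _ => Nat.pow_factorization_choose_le (by omega)
      _ = v ^ (v.choose k).factorization.support.card := by rw [Finset.prod_const]
      _ ≤ v ^ ((range (k + 1)).filter Nat.Prime).card :=
          Nat.pow_le_pow_right (by omega) (Finset.card_le_card hsub)
  calc (v.choose k) ^ 2 ≤ (v ^ ((range (k + 1)).filter Nat.Prime).card) ^ 2 :=
        Nat.pow_le_pow_left h1 2
    _ = v ^ (2 * ((range (k + 1)).filter Nat.Prime).card) := by rw [← pow_mul, Nat.mul_comm]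
    _ ≤ v ^ k := Nat.pow_le_pow_right (by omega) (st_pi k hk)

/-- if all prime factors are small then `u² ≤ k² v` -/
private theorem st_small (v k : ℕ) (hk : 8 ≤ k) (hv : k ≤ v)
    (h : ∀ q : ℕ, q.Prime → q ∣ v.choose k → q ≤ k) : (v + 1 - k) ^ 2 ≤ k ^ 2 * v := by
  have h1 := st_choose v k hk hv h
  have h2 : (v + 1 - k) ^ k ≤ k.factorial * v.choose k := by
    have := @Nat.pow_le_choose ℚ _ _ _ k v
    have h3 : (((v + 1 - k : ℕ) ^ k : ℕ) : ℚ) ≤ ((k.factorial * v.choose k : ℕ) : ℚ) := by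
      rw [div_le_iff₀ (by positivity)] at this
      push_cast at this ⊢
      linarith
    exact_mod_cast h3
  have h3 : k.factorial ≤ k ^ k := Nat.factorial_le_pow k
  have h4 : ((v + 1 - k) ^ 2) ^ k ≤ (k ^ 2 * v) ^ k := by
    calc ((v + 1 - k) ^ 2) ^ k = ((v + 1 - k) ^ k) ^ 2 := by rw [← pow_mul, ← pow_mul, Nat.mul_comm]
      _ ≤ (k ^ k * v.choose k) ^ 2 :=
          Nat.pow_le_pow_left (h2.trans (Nat.mul_le_mul_right _ h3)) 2
      _ = (k ^ k) ^ 2 * (v.choose k) ^ 2 := by ring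
      _ ≤ (k ^ k) ^ 2 * v ^ k := Nat.mul_le_mul_left _ h1
      _ = (k ^ 2 * v) ^ k := by rw [mul_pow, ← pow_mul, ← pow_mul, Nat.mul_comm k 2]
  exact (Nat.pow_le_pow_iff_left (by omega)).1 h4

/-- the numbers -/
private theorem st_num (v k : ℕ) (hv : 2 ^ 26 ≤ v) (hk : (((k - 1 : ℕ)) : ℝ) ≤ (v : ℝ) ^ (21 / 50 : ℝ))
    (hk1 : 1 ≤ k) (hkv : k ≤ v) (h : (v + 1 - k) ^ 2 ≤ k ^ 2 * v) : False := by
  have hv' : (2 : ℝ) ^ 26 ≤ v := by exact_mod_cast hv
  have hv0 : (0 : ℝ) < v := by linarith [pow_pos (show (0 : ℝ) < 2 by norm_num) 26]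
  have hv1 : (1 : ℝ) ≤ v := by
    have : (1 : ℝ) ≤ 2 ^ 26 := by norm_num
    linarith
  set s : ℝ := (v : ℝ) ^ (21 / 50 : ℝ) with hs
  have hs1 : 1 ≤ s := Real.one_le_rpow hv1 (by norm_num)
  have hk' : (k : ℝ) ≤ s + 1 := by
    have : ((k - 1 : ℕ) : ℝ) = (k : ℝ) - 1 := by
      rw [Nat.cast_sub hk1]; simp
    linarith
  -- s is at most v / 4
  have hs2 : s ^ 2 * (v : ℝ) ^ (4 / 25 : ℝ) = v := by
    rw [hs, ← Real.rpow_natCast, ← Real.rpow_mul hv0.le, ← Real.rpow_add hv0]
    norm_num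
  have hbig : (16 : ℝ) < (v : ℝ) ^ (4 / 25 : ℝ) := by
    have h1 : (16 : ℝ) = ((2 : ℝ) ^ (25 : ℝ)) ^ (4 / 25 : ℝ) := by
      rw [← Real.rpow_mul (by norm_num)]
      norm_num
    rw [h1]
    apply Real.rpow_lt_rpow (by positivity) _ (by norm_num)
    have : (2 : ℝ) ^ (25 : ℝ) = 2 ^ 25 := by
      rw [← Real.rpow_natCast]; norm_num
    rw [this]
    have : (2 : ℝ) ^ 25 < 2 ^ 26 := by norm_num
    linarith
  have hs3 : 16 * s ^ 2 < v := by
    have : 0 < s ^ 2 := by positivity
    nlinarith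
  have hu : (v : ℝ) / 2 ≤ ((v + 1 - k : ℕ) : ℝ) := by
    have h1 : ((v + 1 - k : ℕ) : ℝ) = (v : ℝ) + 1 - k := by
      rw [Nat.cast_sub (by omega)]; push_cast; ring
    rw [h1]
    nlinarith
  have hR : (((v + 1 - k : ℕ) : ℝ)) ^ 2 ≤ (k : ℝ) ^ 2 * v := by exact_mod_cast h
  have h1 : ((v : ℝ) / 2) ^ 2 ≤ (k : ℝ) ^ 2 * v :=
    (pow_le_pow_left₀ (by positivity) hu 2).trans hR
  have h2 : (v : ℝ) ≤ 4 * (k : ℝ) ^ 2 := by
    have h3 : (v : ℝ) * v ≤ (4 * (k : ℝ) ^ 2) * v := by nlinarith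
    exact le_of_mul_le_mul_right h3 hv0
  have h3 : (k : ℝ) ^ 2 ≤ (2 * s) ^ 2 := pow_le_pow_left₀ (by positivity) (by linarith) 2
  nlinarith

theorem hST : ST := by
  intro hE
  obtain ⟨V1, hV1⟩ := Filter.eventually_atTop.1 hE
  refine ⟨max V1 (2 ^ 26), ?_⟩
  intro v hv u hLPR h12
  have hvV : V1 ≤ v := le_trans (le_max_left _ _) hv
  have hv26 : 2 ^ 26 ≤ v := le_trans (le_max_right _ _) hv
  have hexp := hV1 v hvV u hLPR
  obtain ⟨hu1, huv, hv2, hdvd⟩ := hLPR
  set N := ∏ m ∈ Icc u v, m with hN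
  have hNpos : 0 < N := Finset.prod_pos fun m hm => by
    have := (Finset.mem_Icc.1 hm).1
    omega
  have hvN : v ∣ N := Finset.dvd_prod_of_mem (fun m => m) (Finset.mem_Icc.2 ⟨huv, le_refl v⟩)
  have hN1 : 1 < N := lt_of_lt_of_le (by omega) (Nat.le_of_dvd hNpos hvN)
  set p := Nat.maxPrimeFac N with hp
  have hpp : p.Prime := Nat.prime_maxPrimeFac_of_one_lt N hN1
  have hmax : ∀ q : ℕ, q.Prime → q ∣ N → q ≤ p := fun q hq hqN => Nat.le_maxPrimeFac N q hNpos hq hqN
  -- the number of factors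
  obtain ⟨k, hk⟩ : ∃ k, k = v - u + 1 := ⟨_, rfl⟩
  have hku : u = v + 1 - k := by omega
  have hkv : k ≤ v := by omega
  have hNk : N = k.factorial * v.choose k := by
    rw [hN, hku, st_prod v k hkv, Nat.descFactorial_eq_factorial_mul_choose]
  have hpk : k < p := by
    by_contra hcon
    push Not at hcon
    have h1 := st_small v k (by omega) hkv (fun q hq hqc =>
      (hmax q hq (hNk ▸ Dvd.dvd.mul_left hqc _)).trans hcon)
    refine st_num v k hv26 ?_ (by omega) hkv h1
    have : k - 1 = v - u := by omega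
    rw [this]
    exact hexp
  -- the multiple of p
  obtain ⟨m, hm, hpm⟩ : ∃ m ∈ Icc u v, p ∣ m :=
    (hpp.prime.dvd_finsetProd_iff (fun m => m)).1 (Nat.maxPrimeFac_dvd N hN1)
  have hm' := Finset.mem_Icc.1 hm
  have hNm : N = m * ∏ n ∈ (Icc u v).erase m, n := (Finset.mul_prod_erase (Icc u v) (fun n => n) hm).symm
  have hnd : ¬ p ∣ ∏ n ∈ (Icc u v).erase m, n := by
    intro hcon
    obtain ⟨n, hn, hpn⟩ := (hpp.prime.dvd_finsetProd_iff (fun m => m)).1 hcon
    have hn1 := Finset.mem_erase.1 hn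
    have hn2 := Finset.mem_Icc.1 hn1.2
    rcases Nat.lt_or_gt_of_ne hn1.1 with hlt | hlt
    · have h1 : p ∣ m - n := Nat.dvd_sub hpm hpn
      have h2 := Nat.le_of_dvd (by omega) h1
      omega
    · have h1 : p ∣ n - m := Nat.dvd_sub hpn hpm
      have h2 := Nat.le_of_dvd (by omega) h1
      omega
  have hp2m : p ^ 2 ∣ m := by
    have hcop : Nat.Coprime (p ^ 2) (∏ n ∈ (Icc u v).erase m, n) :=
      Nat.Coprime.pow_left 2 ((Nat.Prime.coprime_iff_not_dvd hpp).2 hnd)
    rw [hNm] at hdvd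
    exact hcop.dvd_of_dvd_mul_right hdvd
  refine ⟨p, m, hpp, hm'.1, hm'.2, hp2m, by omega, ?_, ?_⟩
  · exact (Nat.le_of_dvd (by omega) hp2m).trans hm'.2
  · intro n hn1 hn2 q hq hqn
    exact hmax q hq (hqn.trans (Finset.dvd_prod_of_mem (fun m => m) (Finset.mem_Icc.2 ⟨hn1, hn2⟩)))

end Pool.Agent.Helper94.BI
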